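import Pool.Agent.U162.SH.Stm

/-!
Project SH, package KER: the kernel bound.
-/

set_option autoImplicit false

open MeasureTheory Set Filter Topology
open scoped ENNReal NNReal

namespace Pool.Agent.U810.SH.KER

open Pool.Agent.U162.SH

/-- the weights `2 ^ (-|j - i|)` -/
noncomputable def w (j i : ℕ) : ℝ≥0∞ := 2⁻¹ ^ ((j - i) + (i - j))

lemma w_symm (j i : ℕ) : w j i = w i j := by
  unfold w
  rw [add_comm]

lemma tsum_half : ∑' n : ℕ, (2⁻¹ : ℝ≥0∞) ^ n = 2 := by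
  rw [ENNReal.tsum_geometric, ENNReal.one_sub_inv_two, inv_inv]

lemma tsum_half' : ∑' n : ℕ, (2⁻¹ : ℝ≥0∞) ^ (n + 1) = 1 := by
  rw [ENNReal.tsum_geometric_add_one, ENNReal.one_sub_inv_two, inv_inv]
  exact ENNReal.inv_mul_cancel (by norm_num) (by norm_num)

lemma tsum_w (j : ℕ) : ∑' i, w j i ≤ 3 := by
  have h := Summable.sum_add_tsum_nat_add' (f := fun i => w j i) (k := j) ENNReal.summable
  rw [← h]
  have h1 : ∑' i, w j (i + j) = 2 := by
    rw [← tsum_half]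
    refine tsum_congr fun i => ?_
    unfold w
    congr 1
    omega
  have h2 : ∑ i ∈ Finset.range j, w j i ≤ 1 := by
    rw [← Finset.sum_range_reflect]
    calc ∑ i ∈ Finset.range j, w j (j - 1 - i) = ∑ i ∈ Finset.range j, (2⁻¹ : ℝ≥0∞) ^ (i + 1) := by
          refine Finset.sum_congr rfl fun i hi => ?_
          rw [Finset.mem_range] at hi
          unfold w
          congr 1
          omega
      _ ≤ ∑' n : ℕ, (2⁻¹ : ℝ≥0∞) ^ (n + 1) := ENNReal.sum_le_tsum _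
      _ = 1 := tsum_half'
  rw [h1]
  calc (∑ i ∈ Finset.range j, w j i) + 2 ≤ 1 + 2 := by gcongr
    _ = 3 := by norm_num

lemma am (a b : ℝ≥0∞) : 2 * (a * b) ≤ a ^ 2 + b ^ 2 := by
  rcases le_total a b with h | h
  · obtain ⟨t, rfl⟩ := exists_add_of_le h
    calc 2 * (a * (a + t)) ≤ 2 * (a * (a + t)) + t ^ 2 := le_self_add
      _ = _ := by ring
  · obtain ⟨t, rfl⟩ := exists_add_of_le h
    calc 2 * ((b + t) * b) ≤ 2 * ((b + t) * b) + t ^ 2 := le_self_add
      _ = _ := by ring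

lemma quad (b : ℕ → ℝ≥0∞) : ∑' j, ∑' i, b j * b i * w j i ≤ 3 * ∑' j, b j ^ 2 := by
  have h1 : ∑' j, ∑' i, b j ^ 2 * w j i ≤ 3 * ∑' j, b j ^ 2 := by
    rw [← ENNReal.tsum_mul_left]
    refine ENNReal.tsum_le_tsum fun j => ?_
    rw [ENNReal.tsum_mul_left, mul_comm]
    gcongr
    exact tsum_w j
  have h2 : ∑' j, ∑' i, b i ^ 2 * w j i ≤ 3 * ∑' j, b j ^ 2 := by
    rw [ENNReal.tsum_comm]
    refine le_trans (le_of_eq ?_) h1
    refine tsum_congr fun i => tsum_congr fun j => ?_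
    rw [w_symm]
  have h3 : 2 * ∑' j, ∑' i, b j * b i * w j i ≤ 2 * (3 * ∑' j, b j ^ 2) := by
    calc 2 * ∑' j, ∑' i, b j * b i * w j i = ∑' j, ∑' i, 2 * (b j * b i) * w j i := by
          rw [← ENNReal.tsum_mul_left]
          refine tsum_congr fun j => ?_
          rw [← ENNReal.tsum_mul_left]
          refine tsum_congr fun i => ?_
          ring
      _ ≤ ∑' j, ∑' i, (b j ^ 2 + b i ^ 2) * w j i := by
          refine ENNReal.tsum_le_tsum fun j => ENNReal.tsum_le_tsum fun i => ?_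
          gcongr
          exact am _ _
      _ = ∑' j, ∑' i, b j ^ 2 * w j i + ∑' j, ∑' i, b i ^ 2 * w j i := by
          rw [← ENNReal.tsum_add]
          refine tsum_congr fun j => ?_
          rw [← ENNReal.tsum_add]
          refine tsum_congr fun i => ?_
          ring
      _ ≤ 3 * ∑' j, b j ^ 2 + 3 * ∑' j, b j ^ 2 := add_le_add h1 h2
      _ = _ := by ring
  exact (ENNReal.mul_le_mul_iff_right (by norm_num) (by norm_num)).1 h3

lemma real_ineq (i m : ℕ) : (2 : ℝ) ^ (i + m) * 2 ^ i ≤ (1 / 2) ^ m * (4 ^ (i + m) + 4 ^ i) := by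
  have h1 : (2 : ℝ) ^ (i + m) * 2 ^ i = (1 / 2) ^ m * 4 ^ (i + m) := by
    have h4 : (4 : ℝ) = 2 * 2 := by norm_num
    rw [h4, mul_pow, pow_add, one_div, inv_pow]
    have : (2 : ℝ) ^ m ≠ 0 := by positivity
    field_simp
  rw [h1, mul_add]
  have : (0 : ℝ) ≤ (1 / 2) ^ m * 4 ^ i := by positivity
  linarith

lemma real_ineq' (j i : ℕ) :
    (2 : ℝ) ^ j * 2 ^ i ≤ (1 / 2) ^ ((j - i) + (i - j)) * (4 ^ j + 4 ^ i) := by
  rcases le_total i j with h | h
  · obtain ⟨m, rfl⟩ := exists_add_of_le h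
    have e : (i + m - i) + (i - (i + m)) = m := by omega
    rw [e]
    exact real_ineq i m
  · obtain ⟨m, rfl⟩ := exists_add_of_le h
    have e : (j - (j + m)) + (j + m - j) = m := by omega
    rw [e, mul_comm ((2 : ℝ) ^ j), add_comm ((4 : ℝ) ^ j)]
    exact real_ineq j m

/-- the kernel -/
noncomputable def kap (c : ℝ) (j i : ℕ) : ℝ≥0∞ := ENNReal.ofReal (1 / (c * ((4 : ℝ) ^ j + 4 ^ i)))

lemma kap_le (c : ℝ) (hc : 0 < c) (j i : ℕ) :
    2 ^ j * 2 ^ i * kap c j i ≤ ENNReal.ofReal (1 / c) * w j i := by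
  have e1 : (2 : ℝ≥0∞) = ENNReal.ofReal 2 := by norm_num
  have e2 : (2⁻¹ : ℝ≥0∞) = ENNReal.ofReal (1 / 2) := by
    rw [one_div, ENNReal.ofReal_inv_of_pos (by norm_num)]
    norm_num
  unfold w kap
  rw [e2, e1, ← ENNReal.ofReal_pow (by norm_num), ← ENNReal.ofReal_pow (by norm_num),
    ← ENNReal.ofReal_pow (by norm_num), ← ENNReal.ofReal_mul (by positivity),
    ← ENNReal.ofReal_mul (by positivity), ← ENNReal.ofReal_mul (by positivity)]
  apply ENNReal.ofReal_le_ofReal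
  have h := real_ineq' j i
  have h4 : (0 : ℝ) < 4 ^ j + 4 ^ i := by positivity
  rw [mul_one_div, div_le_iff₀ (by positivity)]
  calc (2 : ℝ) ^ j * 2 ^ i ≤ (1 / 2) ^ ((j - i) + (i - j)) * (4 ^ j + 4 ^ i) := h
    _ = _ := by field_simp

/-- one shell -/
noncomputable def A (S : Kk → ℝ≥0∞) (j : ℕ) (k : Kk) : ℝ≥0∞ :=
  if (4 : ℤ) ^ j ≤ sqn k ∧ sqn k < 4 ^ (j + 1) then S k else 0

lemma sqn_nonneg (k : Kk) : 0 ≤ sqn k := Finset.sum_nonneg fun _ _ => sq_nonneg _

lemma sqn_pos {k : Kk} (hk : k ≠ 0) : 0 < sqn k := by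
  rcases (sqn_nonneg k).lt_or_eq with h | h
  · exact h
  · exfalso
    apply hk
    have h1 := (Finset.sum_eq_zero_iff_of_nonneg (fun i _ => sq_nonneg (k i))).1 h.symm
    funext i
    exact pow_eq_zero_iff two_ne_zero |>.1 (h1 i (Finset.mem_univ i))

lemma exists_shell {k : Kk} (hk : k ≠ 0) :
    ∃ j : ℕ, (4 : ℤ) ^ j ≤ sqn k ∧ sqn k < 4 ^ (j + 1) := by
  obtain ⟨n, hn⟩ := Int.eq_ofNat_of_zero_le (sqn_nonneg k)
  have hpos := sqn_pos hk
  have hn0 : n ≠ 0 := by omega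
  refine ⟨Nat.log 4 n, ?_, ?_⟩
  · rw [hn]
    exact_mod_cast Nat.pow_log_le_self 4 hn0
  · rw [hn]
    exact_mod_cast Nat.lt_pow_succ_log_self (by norm_num : 1 < 4) n

lemma term_le (c : ℝ) (hc : 0 < c) (S : Kk → ℝ≥0∞) (hS : S 0 = 0) (k l : Kk) :
    S k * S l * ENNReal.ofReal (1 / (c * ((sqn k : ℝ) + (sqn l : ℝ)))) ≤
      ∑' q : ℕ × ℕ, A S q.1 k * A S q.2 l * kap c q.1 q.2 := by
  by_cases hk : k = 0
  · rw [hk, hS, zero_mul, zero_mul]; exact zero_le
  by_cases hl : l = 0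
  · rw [hl, hS, mul_zero, zero_mul]; exact zero_le
  obtain ⟨j, hj⟩ := exists_shell hk
  obtain ⟨i, hi⟩ := exists_shell hl
  refine le_trans ?_ (ENNReal.le_tsum (j, i))
  simp only [A, hj, hi, and_self, if_true]
  gcongr
  unfold kap
  apply ENNReal.ofReal_le_ofReal
  have h1 : (4 : ℝ) ^ j ≤ sqn k := by exact_mod_cast hj.1
  have h2 : (4 : ℝ) ^ i ≤ sqn l := by exact_mod_cast hi.1
  apply one_div_le_one_div_of_le (by positivity)
  gcongr

theorem t_KER : S_KER := by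
  intro c hc S hS
  have h1 : ∑' k : Kk, ∑' l : Kk, S k * S l *
      ENNReal.ofReal (1 / (c * ((sqn k : ℝ) + (sqn l : ℝ)))) ≤
        ∑' q : ℕ × ℕ, shl S q.1 * shl S q.2 * kap c q.1 q.2 := by
    calc ∑' k : Kk, ∑' l : Kk, S k * S l *
        ENNReal.ofReal (1 / (c * ((sqn k : ℝ) + (sqn l : ℝ)))) ≤
        ∑' k : Kk, ∑' l : Kk, ∑' q : ℕ × ℕ, A S q.1 k * A S q.2 l * kap c q.1 q.2 :=
          ENNReal.tsum_le_tsum fun k => ENNReal.tsum_le_tsum fun l => term_le c hc S hS k l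
      _ = ∑' k : Kk, ∑' q : ℕ × ℕ, ∑' l : Kk, A S q.1 k * A S q.2 l * kap c q.1 q.2 :=
          tsum_congr fun k => ENNReal.tsum_comm
      _ = ∑' q : ℕ × ℕ, ∑' k : Kk, ∑' l : Kk, A S q.1 k * A S q.2 l * kap c q.1 q.2 :=
          ENNReal.tsum_comm
      _ = ∑' q : ℕ × ℕ, shl S q.1 * shl S q.2 * kap c q.1 q.2 := by
          refine tsum_congr fun q => ?_
          have e1 : ∀ j, shl S j = ∑' k, A S j k := fun j => rfl
          rw [e1, e1]
          calc ∑' k : Kk, ∑' l : Kk, A S q.1 k * A S q.2 l * kap c q.1 q.2 =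
              ∑' k : Kk, A S q.1 k * ((∑' l : Kk, A S q.2 l) * kap c q.1 q.2) := by
                refine tsum_congr fun k => ?_
                rw [← ENNReal.tsum_mul_right, ← ENNReal.tsum_mul_left]
                refine tsum_congr fun l => ?_
                ring
            _ = (∑' k : Kk, A S q.1 k) * ((∑' l : Kk, A S q.2 l) * kap c q.1 q.2) := by
                rw [ENNReal.tsum_mul_right]
            _ = _ := by ring
  set b : ℕ → ℝ≥0∞ := fun j => shl S j / 2 ^ j with hb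
  have hb1 : ∀ j, shl S j = b j * 2 ^ j := by
    intro j
    rw [hb]
    exact (ENNReal.div_mul_cancel (by positivity) (by finiteness)).symm
  have h2 : ∑' q : ℕ × ℕ, shl S q.1 * shl S q.2 * kap c q.1 q.2 ≤
      ENNReal.ofReal (1 / c) * ∑' j, ∑' i, b j * b i * w j i := by
    calc ∑' q : ℕ × ℕ, shl S q.1 * shl S q.2 * kap c q.1 q.2 ≤
        ∑' q : ℕ × ℕ, ENNReal.ofReal (1 / c) * (b q.1 * b q.2 * w q.1 q.2) := by
          refine ENNReal.tsum_le_tsum fun q => ?_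
          rw [hb1, hb1]
          calc b q.1 * 2 ^ q.1 * (b q.2 * 2 ^ q.2) * kap c q.1 q.2 =
              b q.1 * b q.2 * (2 ^ q.1 * 2 ^ q.2 * kap c q.1 q.2) := by ring
            _ ≤ b q.1 * b q.2 * (ENNReal.ofReal (1 / c) * w q.1 q.2) := by
                exact mul_le_mul_of_nonneg_left (kap_le c hc _ _) zero_le
            _ = _ := by ring
      _ = _ := by
          rw [ENNReal.tsum_mul_left]
          congr 1
          exact ENNReal.tsum_prod (f := fun j i => b j * b i * w j i)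
  refine h1.trans (h2.trans ?_)
  calc ENNReal.ofReal (1 / c) * ∑' j, ∑' i, b j * b i * w j i ≤
      ENNReal.ofReal (1 / c) * (3 * ∑' j, b j ^ 2) := by
        gcongr
        exact quad b
    _ = ENNReal.ofReal (3 / c) * N2 S := by
        have e3 : ENNReal.ofReal (3 / c) = ENNReal.ofReal (1 / c) * 3 := by
          have : (3 : ℝ≥0∞) = ENNReal.ofReal 3 := by norm_num
          rw [this, ← ENNReal.ofReal_mul (by positivity)]
          congr 1
          ring
        rw [e3, mul_assoc]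
        rfl

end Pool.Agent.U810.SH.KER
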